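import Pool.Agent.H7.StrictAdd

set_option autoImplicit false

namespace Pool.Agent.Results.MP_6c2242_co.NotRegular

/-- A Steiner 2-design that is strictly `G`-additive but not `G`-regular. -/
theorem result : ∃ (G : Type) (_ : AddCommGroup G) (_ : Fintype G) (_ : DecidableEq G)
    (V : Type) (_ : Fintype V) (k : ℕ) (B : Finset (Finset V)),
    2 ≤ k ∧ k ≤ Fintype.card V ∧ (∀ b ∈ B, b.card = k) ∧
    (∀ x y : V, x ≠ y → ∃! b, b ∈ B ∧ x ∈ b ∧ y ∈ b) ∧
    (∃ f : V ≃ G, ∀ b ∈ B, ∑ x ∈ b, f x = 0) ∧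
    ¬ ∃ f : V ≃ G, ∀ b ∈ B, ∀ g : G, ∃ c ∈ B,
      c.image f = (b.image f).image (fun x => x + g) :=
  ⟨H7.StrictAdd.G, inferInstance, inferInstance, inferInstance, H7.StrictAdd.G, inferInstance, 4,
    H7.StrictAdd.blocks, by norm_num, by decide, H7.StrictAdd.blocks_card,
    H7.StrictAdd.blocks_pair, ⟨Equiv.refl _, H7.StrictAdd.blocks_sum⟩, H7.StrictAdd.not_regular⟩

end Pool.Agent.Results.MP_6c2242_co.NotRegular
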